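import Mathlib

namespace Pool.Agent.Results.MP_196a0c_al.No

open TensorProduct

/-- A commutative Green functor for the cyclic group of order two, as a Lewis diagram:
T is the ring at the orbit G/G, U the ring at the free orbit G/e, w the action of the generator -/
structure Green where
  T : Type
  U : Type
  [iT : CommRing T]
  [iU : CommRing U]
  w : U →+* U
  res : T →+* U
  tr : U →+ T
  w_w : ∀ x, w (w x) = x
  w_res : ∀ a, w (res a) = res a
  tr_w : ∀ x, tr (w x) = tr x
  res_tr : ∀ x, res (tr x) = x + w x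
  frob : ∀ a x, tr (res a * x) = a * tr x

attribute [instance] Green.iT Green.iU

/-- maps of Green functors -/
structure GreenHom (R S : Green) where
  t : R.T →+* S.T
  u : R.U →+* S.U
  u_w : ∀ x, u (R.w x) = S.w (u x)
  u_res : ∀ a, u (R.res a) = S.res (t a)
  t_tr : ∀ x, t (R.tr x) = S.tr (u x)

/-- modules over a Green functor R: Mackey functors with levelwise compatible actions -/
structure Mod (R : Green) where
  T : Type
  U : Type
  [iT : AddCommGroup T]
  [iU : AddCommGroup U]
  [mT : Module R.T T]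
  [mU : Module R.U U]
  w : U →+ U
  res : T →+ U
  tr : U →+ T
  w_w : ∀ x, w (w x) = x
  w_res : ∀ a, w (res a) = res a
  tr_w : ∀ x, tr (w x) = tr x
  res_tr : ∀ x, res (tr x) = x + w x
  w_smul : ∀ (r : R.U) x, w (r • x) = R.w r • w x
  res_smul : ∀ (r : R.T) a, res (r • a) = R.res r • res a
  frob1 : ∀ (r : R.T) x, tr (R.res r • x) = r • tr x
  frob2 : ∀ (r : R.U) a, tr (r • res a) = R.tr r • a

attribute [instance] Mod.iT Mod.iU Mod.mT Mod.mU

/-- maps of R-modules -/
structure ModHom {R : Green} (M N : Mod R) where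
  t : M.T →ₗ[R.T] N.T
  u : M.U →ₗ[R.U] N.U
  u_w : ∀ x, u (M.w x) = N.w (u x)
  u_res : ∀ a, u (M.res a) = N.res (t a)
  t_tr : ∀ x, t (M.tr x) = N.tr (u x)

/-- an R-algebra S regarded as an R-module -/
def algMod {R S : Green} (f : GreenHom R S) : Mod R where
  T := S.T
  U := S.U
  mT := Module.compHom S.T f.t
  mU := Module.compHom S.U f.u
  w := S.w.toAddMonoidHom
  res := S.res.toAddMonoidHom
  tr := S.tr
  w_w := S.w_w
  w_res := S.w_res
  tr_w := S.tr_w
  res_tr := S.res_tr
  w_smul r x := by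
    change S.w (f.u r * x) = f.u (R.w r) * S.w x
    rw [map_mul, f.u_w]
  res_smul r a := by
    change S.res (f.t r * a) = f.u (R.res r) * S.res a
    rw [map_mul, f.u_res]
  frob1 r x := by
    change S.tr (f.u (R.res r) * x) = f.t r * S.tr x
    rw [f.u_res, S.frob]
  frob2 r a := by
    change S.tr (f.u r * S.res a) = f.t (R.tr r) * a
    rw [mul_comm, S.frob, f.t_tr, mul_comm]

/-- relations of the relative box product at G/G: Weyl coinvariants on the transferred part
and the two Frobenius reciprocity relations -/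
def rel {R : Green} (M N : Mod R) : AddSubgroup ((M.T ⊗[R.T] N.T) × (M.U ⊗[R.U] N.U)) :=
  AddSubgroup.closure
    ({p | ∃ x y, p = (0, M.w x ⊗ₜ N.w y - x ⊗ₜ y)} ∪
      {p | ∃ x b, p = (M.tr x ⊗ₜ b, -(x ⊗ₜ N.res b))} ∪
      {p | ∃ a y, p = (a ⊗ₜ N.tr y, -(M.res a ⊗ₜ y))})

/-- the relative box product of M and N over R at the orbit G/G -/
abbrev BoxT {R : Green} (M N : Mod R) : Type :=
  ((M.T ⊗[R.T] N.T) × (M.U ⊗[R.U] N.U)) ⧸ rel M N

/-- the map induced on the box product at G/G by a module map in the second variable -/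
noncomputable def boxMapT {R : Green} (M : Mod R) {N N' : Mod R} (f : ModHom N N') :
    BoxT M N →+ BoxT M N' :=
  QuotientAddGroup.map _ _
    ((f.t.lTensor M.T).toAddMonoidHom.prodMap (f.u.lTensor M.U).toAddMonoidHom) (by
      rw [rel, AddSubgroup.closure_le]
      rintro _ ((⟨x, y, rfl⟩ | ⟨x, b, rfl⟩) | ⟨a, y, rfl⟩)
      · exact AddSubgroup.subset_closure (Or.inl (Or.inl ⟨x, f.u y, by simp [f.u_w]⟩))
      · exact AddSubgroup.subset_closure (Or.inl (Or.inr ⟨x, f.t b, by simp [f.u_res]⟩))
      · exact AddSubgroup.subset_closure (Or.inr ⟨a, f.u y, by simp [f.t_tr]⟩))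

/-- M is flat: the right exact functor given by the box product with M over R preserves
injective maps, at both orbits; at G/e the box product is the tensor product over R.U -/
def Flat {R : Green} (M : Mod R) : Prop :=
  ∀ (N N' : Mod R) (f : ModHom N N'), Function.Injective f.t → Function.Injective f.u →
    Function.Injective (boxMapT M f) ∧ Function.Injective (f.u.lTensor M.U)

/-- f is the localization at an element b of the level G/e: the initial commutative R-algebra
in which b becomes a unit -/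
def IsLoc {R S : Green} (f : GreenHom R S) (b : R.U) : Prop :=
  IsUnit (f.u b) ∧ ∀ (S' : Green) (g : GreenHom R S'), IsUnit (g.u b) →
    ∃! h : GreenHom S S', h.t.comp f.t = g.t ∧ h.u.comp f.u = g.u

theorem GreenHom.ext' {R S : Green} {f g : GreenHom R S} (h1 : f.t = g.t) (h2 : f.u = g.u) :
    f = g := by
  cases f; cases g; congr

def RZ : Green where
  T := ℤ
  U := ℤ
  w := RingHom.id ℤ
  res := RingHom.id ℤ
  tr := AddMonoidHom.mulLeft 2
  w_w _ := rfl
  w_res _ := rfl
  tr_w _ := rfl
  res_tr x := two_mul x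
  frob a x := mul_left_comm 2 a x

abbrev L : Type := Localization.Away (2 : ℤ)

noncomputable def SZ : Green where
  T := L × ZMod 2
  U := L
  w := RingHom.id L
  res := RingHom.fst _ _
  tr := (AddMonoidHom.inl _ _).comp (AddMonoidHom.mulLeft 2)
  w_w _ := rfl
  w_res _ := rfl
  tr_w _ := rfl
  res_tr x := two_mul x
  frob a x := Prod.ext (mul_left_comm 2 a.1 x) (mul_zero a.2).symm

noncomputable def fZ : GreenHom RZ SZ where
  t := Int.castRingHom (L × ZMod 2)
  u := Int.castRingHom L
  u_w _ := rfl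
  u_res _ := rfl
  t_tr (x : ℤ) := by
    change (((2 * x : ℤ) : L), ((2 * x : ℤ) : ZMod 2)) = (2 * (x : L), 0)
    rw [Int.cast_mul, Int.cast_mul, Int.cast_ofNat, Int.cast_ofNat, show (2 : ZMod 2) = 0 from rfl,
      zero_mul]

theorem two_unit : IsUnit (2 : L) := by
  have := IsLocalization.Away.algebraMap_isUnit (S := L) (2 : ℤ)
  simpa using this

theorem L_ext {A : Type} [CommRing A] (f g : L →+* A) : f = g :=
  IsLocalization.ringHom_ext (Submonoid.powers (2 : ℤ)) (RingHom.ext_int _ _)

theorem isLoc : IsLoc fZ (2 : ℤ) := by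
  refine ⟨by change IsUnit (((2 : ℤ) : L)); simpa using two_unit, fun S g hg => ?_⟩
  have hg' : IsUnit ((Int.castRingHom S.U) 2) := by
    rw [← RingHom.ext_int (g.u : ℤ →+* S.U) (Int.castRingHom S.U)]; exact hg
  let χ : L →+* S.U := IsLocalization.Away.lift (2 : ℤ) hg'
  obtain ⟨v, hv⟩ := two_unit.exists_left_inv
  have hw : ∀ x, S.w (χ x) = χ x := fun x => RingHom.congr_fun (L_ext (S.w.comp χ) χ) x
  have htr : S.tr 1 = 2 := by
    have h1 := g.t_tr (1 : ℤ)
    have h2 : g.u (1 : ℤ) = 1 := map_one g.u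
    have h3 : g.t (RZ.tr (1 : ℤ)) = 2 := map_ofNat (g.t : ℤ →+* S.T) 2
    rw [h2, h3] at h1
    exact h1.symm
  have hres : ∀ x, S.res (S.tr (χ (x * v))) = χ x := fun x => by
    rw [S.res_tr, hw, ← map_add]
    congr 1
    linear_combination x * hv
  have hmul : ∀ x y, S.tr (χ (x * v)) * S.tr (χ y) = S.tr (χ (x * y)) := fun x y => by
    rw [← S.frob, hres, ← map_mul χ]
  have he : S.tr (χ v) + S.tr (χ v) = 2 := by
    rw [← map_add, ← map_add, ← htr, ← map_one χ, ← hv, mul_two]
  let c : ZMod 2 → S.T := fun n => if n = 0 then 0 else 1 - S.tr (χ v)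
  have hc0 : ∀ x, S.tr (χ (x * v)) * (1 - S.tr (χ v)) = 0 := fun x => by
    rw [mul_sub, hmul, mul_one, sub_self]
  have hc : ∀ x n, S.tr (χ (x * v)) * c n = 0 := fun x n => by
    simp only [c]
    split_ifs
    · exact mul_zero _
    · exact hc0 x
  have hz : ∀ n : ZMod 2, n = 0 ∨ n = 1 := by decide
  have c0 : c 0 = 0 := if_pos rfl
  have c1 : c 1 = 1 - S.tr (χ v) := if_neg (by decide)
  have cadd : ∀ m n, c (m + n) = c m + c n := by
    intro m n
    rcases hz m with rfl | rfl <;> rcases hz n with rfl | rfl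
    · rw [add_zero, c0, add_zero]
    · rw [zero_add, c0, zero_add]
    · rw [add_zero, c0, add_zero]
    · rw [show (1 + 1 : ZMod 2) = 0 from rfl, c0, c1]
      linear_combination he
  have cmul : ∀ m n, c (m * n) = c m * c n := by
    intro m n
    rcases hz m with rfl | rfl <;> rcases hz n with rfl | rfl
    · rw [mul_zero, c0, mul_zero]
    · rw [zero_mul, c0, zero_mul]
    · rw [mul_zero, c0, mul_zero]
    · have := hc0 1
      rw [one_mul] at this
      rw [mul_one, c1]
      linear_combination this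
  let t : L × ZMod 2 →+* S.T :=
    { toFun := fun p => S.tr (χ (p.1 * v)) + c p.2
      map_one' := by
        change S.tr (χ (1 * v)) + c 1 = 1
        rw [c1, one_mul, add_sub_cancel]
      map_zero' := by
        change S.tr (χ (0 * v)) + c 0 = 0
        rw [c0, zero_mul, map_zero, map_zero, add_zero]
      map_add' := fun p q => by
        rw [Prod.fst_add, Prod.snd_add, add_mul, map_add, map_add, cadd]
        abel
      map_mul' := fun p q => by
        rw [Prod.fst_mul, Prod.snd_mul, cmul, mul_assoc, ← hmul]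
        linear_combination - hc p.1 q.2 - hc q.1 p.2 }
  refine ⟨⟨t, χ, fun x => (hw x).symm, fun a => ?_, fun x => ?_⟩,
    ⟨RingHom.ext_int _ _, RingHom.ext_int _ _⟩, fun h _ => ?_⟩
  · change χ a.1 = S.res (S.tr (χ (a.1 * v)) + c a.2)
    have h1 := hres 1
    rw [one_mul, map_one] at h1
    rw [map_add, hres]
    rcases hz a.2 with h | h
    · rw [h, c0, map_zero, add_zero]
    · rw [h, c1, map_sub, map_one, h1, sub_self, add_zero]
  · change S.tr (χ (2 * (show L from x) * v)) + c 0 = S.tr (χ x)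
    rw [c0, add_zero]
    congr 2
    linear_combination (show L from x) * hv
  · have hu : h.u = χ := L_ext _ _
    refine GreenHom.ext' ?_ hu
    have h1 : ∀ x : L, h.t (x, 0) = S.tr (χ (x * v)) := fun x => by
      have h2 := h.t_tr (x * v)
      rw [hu] at h2
      have h3 : ((x, 0) : L × ZMod 2) = (2 * (x * v), 0) :=
        Prod.ext (by change x = 2 * (x * v); linear_combination - x * hv) rfl
      exact (congrArg h.t h3).trans h2
    have key : ∀ s : L × ZMod 2 →+* S.T, (∀ x : L, s (x, 0) = S.tr (χ (x * v))) → s = t := by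
      intro s h1
      ext1 ⟨x, n⟩
      change s (x, n) = S.tr (χ (x * v)) + c n
      rcases hz n with rfl | rfl
      · rw [c0, add_zero, h1]
      · have h3 : ((x, 1) : L × ZMod 2) = (x, 0) + (1 - (1, 0)) := Prod.ext (by simp) (by simp)
        rw [c1, h3, map_add, map_sub, map_one, h1, h1, one_mul]
    exact key h.t h1

def N1 : Mod RZ where
  T := ZMod 2
  U := PUnit
  mT := inferInstanceAs (Module ℤ (ZMod 2))
  mU := inferInstanceAs (Module ℤ PUnit)
  w := 0
  res := 0
  tr := 0
  w_w _ := rfl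
  w_res _ := rfl
  tr_w _ := rfl
  res_tr _ := rfl
  w_smul _ _ := rfl
  res_smul _ _ := rfl
  frob1 r _ := (smul_zero (show ℤ from r)).symm
  frob2 r a := by
    change (0 : ZMod 2) = (2 * (show ℤ from r)) • a
    rw [zsmul_eq_mul, Int.cast_mul, Int.cast_ofNat, show (2 : ZMod 2) = 0 from rfl, zero_mul, zero_mul]

def N2 : Mod RZ where
  T := ZMod 2
  U := ZMod 2
  mT := inferInstanceAs (Module ℤ (ZMod 2))
  mU := inferInstanceAs (Module ℤ (ZMod 2))
  w := AddMonoidHom.id _
  res := 0
  tr := AddMonoidHom.id _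
  w_w _ := rfl
  w_res _ := rfl
  tr_w _ := rfl
  res_tr := by decide
  w_smul _ _ := rfl
  res_smul r _ := (smul_zero (show ℤ from r)).symm
  frob1 _ _ := rfl
  frob2 r a := by
    change (show ℤ from r) • (0 : ZMod 2) = (2 * (show ℤ from r)) • a
    rw [smul_zero, zsmul_eq_mul, Int.cast_mul, Int.cast_ofNat, show (2 : ZMod 2) = 0 from rfl,
      zero_mul, zero_mul]

def inc : ModHom N1 N2 where
  t := LinearMap.id
  u := 0
  u_w _ := rfl
  u_res _ := rfl
  t_tr _ := rfl

theorem result : ∃ (R S : Green) (b : R.U) (f : GreenHom R S),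
    b ∈ nonZeroDivisors R.U ∧ IsLoc f b ∧ ¬ Flat (algMod f) := by
  refine ⟨RZ, SZ, (2 : ℤ), fZ, mem_nonZeroDivisors_of_ne_zero (M₀ := ℤ) two_ne_zero, isLoc, fun h => ?_⟩
  have h1 := (h N1 N2 inc (fun _ _ h => h) fun _ _ _ => rfl).1
  let a : (algMod fZ).T := ((0, 1) : L × ZMod 2)
  let o : N1.T := (1 : ZMod 2)
  have h2 : boxMapT (algMod fZ) inc (QuotientAddGroup.mk (a ⊗ₜ o, 0)) = 0 := by
    rw [boxMapT, QuotientAddGroup.map_mk, QuotientAddGroup.eq_zero_iff]
    refine AddSubgroup.subset_closure (Or.inr ⟨a, (1 : ZMod 2), Prod.ext rfl ?_⟩)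
    have : (algMod fZ).res a = 0 := rfl
    rw [this, zero_tmul, neg_zero]
    exact map_zero (inc.u.lTensor (algMod fZ).U)
  have h3 := (QuotientAddGroup.eq_zero_iff _).1 ((injective_iff_map_eq_zero _).1 h1 _ h2)
  let β : (algMod fZ).T →+ N1.T →+ ZMod 2 :=
    { toFun := fun s => AddMonoidHom.mulLeft (show L × ZMod 2 from s).2
      map_zero' := AddMonoidHom.ext fun m => zero_mul (show ZMod 2 from m)
      map_add' := fun s s' => AddMonoidHom.ext fun m => add_mul _ _ (show ZMod 2 from m) }
  let γ : (algMod fZ).T ⊗[RZ.T] N1.T →+ ZMod 2 := TensorProduct.liftAddHom β fun r s m => by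
    change (((show ℤ from r) : ZMod 2) * (show L × ZMod 2 from s).2) * (show ZMod 2 from m)
      = (show L × ZMod 2 from s).2 * ((show ℤ from r) • (show ZMod 2 from m))
    rw [zsmul_eq_mul]
    ring
  have h4 : rel (algMod fZ) N1 ≤ (γ.comp (AddMonoidHom.fst _ _)).ker := by
    rw [rel, AddSubgroup.closure_le]
    rintro _ ((⟨x, y, rfl⟩ | ⟨x, b, rfl⟩) | ⟨a, y, rfl⟩)
    · exact map_zero γ
    · exact zero_mul (show ZMod 2 from b)
    · exact mul_zero (show L × ZMod 2 from a).2
  have h5 : (1 * 1 : ZMod 2) = 0 := h4 h3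
  exact absurd h5 (by decide)

end Pool.Agent.Results.MP_196a0c_al.No
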